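import Pool.Agent.Helper52.SZ.Defs
import Pool.Agent.Helper46.SZ.MHJ

/-!
Project SZ, module SZ-4: the colouring dichotomy
-/

set_option autoImplicit false

namespace Pool.Agent.Helper52.SZ

open Combinatorics

section ramsey

variable {α β ι ι' ι₁ η ζ : Type}

/-- the word with first letter a, then w -/
def ram_cons (a : β) (w : ι' → β) : Option ι' → β := fun o => o.elim a w

/-- reindexing a subspace -/
def ram_re (σ : ι ≃ ι₁) (V : Subspace η β ι₁) : Subspace η β ι where
  idxFun j := V.idxFun (σ j)
  proper e := by
    obtain ⟨j, hj⟩ := V.proper e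
    exact ⟨σ.symm j, by rw [σ.apply_symm_apply, hj]⟩

theorem ram_ext_re (σ : ι ≃ ι₁) (V : Subspace η α ι₁) (s : η → Option α) :
    extS (ram_re σ V) s = fun j => extS V s (σ j) := by
  funext j
  simp only [Subspace.coe_apply, extS, ram_re]

/-- the subspace obtained from a subspace over the alphabet with star, which has the first
coordinate as an additional wildcard -/
def ram_W0 (T : Subspace η (Option α) ι') : Subspace (Option η) α (Option ι') where
  idxFun o := o.elim (Sum.inr none)
    fun j => (T.idxFun j).elim (fun b => b.elim (Sum.inr none) Sum.inl) fun q => Sum.inr (some q)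
  proper e := by
    rcases e with _ | q
    · exact ⟨none, rfl⟩
    · obtain ⟨j, hj⟩ := T.proper q
      exact ⟨some j, by simp [hj]⟩

theorem ram_W0_ext (T : Subspace η (Option α) ι') (s : Option η → Option α) (hs : s none = none) :
    extS (ram_W0 T) s = ram_cons none (T (fun q => s (some q))) := by
  funext o
  rcases o with _ | j
  · simp [Subspace.coe_apply, extS, ram_W0, ram_cons, hs]
  · simp only [Subspace.coe_apply, extS, ram_W0, ram_cons, Option.elim_some]
    rcases T.idxFun j with b | q
    · rcases b with _ | a
      · simp [hs]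
      · simp
    · simp

theorem ram_step [Finite α] [Nonempty α] (m0 M n' n1 : ℕ) (C : Type) [Finite C]
    (ih : ∀ (ι : Type) [Finite ι], n' ≤ Nat.card ι →
      ∀ good : C × α → (ι → Option α) → Prop,
        (∃ R : Subspace (Fin m0) α ι, ∀ c, ∀ s : Fin m0 → Option α, (∃ e, s e = none) →
          ¬ good c (extS R s)) ∨
        (∃ c, ∃ W : Subspace (Option (Fin M)) α ι, ∀ s : Option (Fin M) → Option α,
          s none = none → good c (extS W s)))
    (hn1 : ∀ (ι : Type) [Finite ι], n1 ≤ Nat.card ι → ∀ f : (ι → Option α) → (C → Prop),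
      ∃ V : Subspace (Fin (max n' M)) (Option α) ι, ∃ c, ∀ x, f (V x) = c)
    (ι' : Type) [Finite ι'] (hι : n1 ≤ Nat.card ι')
    (good : C → (Option ι' → Option α) → Prop) :
    (∃ R : Subspace (Fin (m0 + 1)) α (Option ι'), ∀ c, ∀ s : Fin (m0 + 1) → Option α,
      (∃ e, s e = none) → ¬ good c (extS R s)) ∨
    (∃ c, ∃ W : Subspace (Option (Fin M)) α (Option ι'), ∀ s : Option (Fin M) → Option α,
      s none = none → good c (extS W s)) := by
  obtain ⟨T, χ, hT⟩ := hn1 ι' hι (fun w c => good c (ram_cons none w))
  have hχ : ∀ (c : C) (s : Option (Fin (max n' M)) → Option α), s none = none →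
      (good c (extS (ram_W0 T) s) ↔ χ c) := by
    intro c s hs
    rw [ram_W0_ext T s hs]
    have := congrFun (hT (fun q => s (some q))) c
    exact Iff.of_eq this
  by_cases hc : ∃ c, χ c
  · obtain ⟨c, hc⟩ := hc
    right
    obtain ⟨a0⟩ := ‹Nonempty α›
    let U : Subspace (Option (Fin M)) α (Option (Fin (max n' M))) :=
      { idxFun := fun o => o.elim (Sum.inr none)
          fun q => if h : (q : ℕ) < M then Sum.inr (some ⟨q, h⟩) else Sum.inl a0
        proper := by
          intro e
          rcases e with _ | q
          · exact ⟨none, rfl⟩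
          · refine ⟨some (Fin.castLE (le_max_right n' M) q), ?_⟩
            simp }
    refine ⟨c, compS (ram_W0 T) U, fun s hs => ?_⟩
    rw [extS_compS, hχ]
    · exact hc
    · simp [Subspace.coe_apply, extS, U, hs]
  · push Not at hc
    have hcard : n' ≤ Nat.card (Fin (max n' M)) := by
      rw [Nat.card_fin]
      exact le_max_left _ _
    rcases ih (Fin (max n' M)) hcard
      (fun ca s' => good ca.1 (extS (ram_W0 T) (ram_cons (some ca.2) s'))) with ⟨R', hR'⟩ | ⟨ca, W', hW'⟩
    · left
      let U : Subspace (Fin (m0 + 1)) α (Option (Fin (max n' M))) :=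
        { idxFun := fun o => o.elim (Sum.inr 0) fun q => (R'.idxFun q).map id Fin.succ
          proper := by
            intro e
            rcases Fin.eq_zero_or_eq_succ e with rfl | ⟨e', rfl⟩
            · exact ⟨none, rfl⟩
            · obtain ⟨q, hq⟩ := R'.proper e'
              exact ⟨some q, by simp [hq]⟩ }
      have hU : ∀ s : Fin (m0 + 1) → Option α,
          extS U s = ram_cons (s 0) (extS R' (fun i => s i.succ)) := by
        intro s
        funext o
        rcases o with _ | q
        · simp [Subspace.coe_apply, extS, U, ram_cons]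
        · simp only [Subspace.coe_apply, extS, U, ram_cons, Option.elim_some]
          rcases R'.idxFun q with b | q'
          · simp
          · simp
      refine ⟨compS (ram_W0 T) U, fun c s hs => ?_⟩
      rw [extS_compS, hU]
      rcases h0 : s 0 with _ | a
      · rw [hχ c _ rfl]
        exact hc c
      · refine hR' (c, a) (fun i => s i.succ) ?_
        obtain ⟨e, he⟩ := hs
        rcases Fin.eq_zero_or_eq_succ e with rfl | ⟨e', rfl⟩
        · rw [h0] at he
          exact absurd he (by simp)
        · exact ⟨e', he⟩
    · right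
      let U : Subspace (Option (Fin M)) α (Option (Fin (max n' M))) :=
        { idxFun := fun o => o.elim (Sum.inl ca.2) fun q => W'.idxFun q
          proper := by
            intro e
            obtain ⟨q, hq⟩ := W'.proper e
            exact ⟨some q, hq⟩ }
      have hU : ∀ s : Option (Fin M) → Option α,
          extS U s = ram_cons (some ca.2) (extS W' s) := by
        intro s
        funext o
        rcases o with _ | q
        · simp [Subspace.coe_apply, extS, U, ram_cons]
        · simp only [Subspace.coe_apply, extS, U, ram_cons, Option.elim_some]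
      refine ⟨ca.1, compS (ram_W0 T) U, fun s hs => ?_⟩
      rw [extS_compS, hU]
      exact hW' s hs

end ramsey

theorem ramsey {α : Type} [Finite α] [Nonempty α] (m0 M : ℕ) :
    ∀ (C : Type) [Finite C], ∃ n0 : ℕ, ∀ (ι : Type) [Finite ι], n0 ≤ Nat.card ι →
      ∀ good : C → (ι → Option α) → Prop,
        (∃ R : Subspace (Fin m0) α ι, ∀ c, ∀ s : Fin m0 → Option α, (∃ e, s e = none) →
          ¬ good c (extS R s)) ∨
        (∃ c, ∃ W : Subspace (Option (Fin M)) α ι, ∀ s : Option (Fin M) → Option α,
          s none = none → good c (extS W s)) := by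
  induction m0 with
  | zero =>
    intro C _
    refine ⟨0, fun ι _ _ good => Or.inl ⟨?_, ?_⟩⟩
    · exact { idxFun := fun _ => Sum.inl (Classical.arbitrary α), proper := fun e => e.elim0 }
    · rintro c s ⟨e, -⟩
      exact e.elim0
  | succ m0 ih =>
    intro C _
    obtain ⟨n', hn'⟩ := ih (C × α)
    obtain ⟨n1, hn1⟩ := mhj_large (Option α) (C → Prop) (max n' M)
    refine ⟨n1 + 1, fun ι _ hι good => ?_⟩
    obtain ⟨m, hm⟩ : ∃ m, Nat.card ι = m + 1 := ⟨Nat.card ι - 1, by omega⟩
    let σ : ι ≃ Option (Fin m) := (Finite.equivFin ι).trans ((finCongr hm).trans (finSuccEquiv m))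
    have hcard : n1 ≤ Nat.card (Fin m) := by
      rw [Nat.card_fin]
      omega
    rcases ram_step m0 M n' n1 C hn' hn1 (Fin m) hcard
      (fun c w => good c fun j => w (σ j)) with ⟨R, hR⟩ | ⟨c, W, hW⟩
    · left
      refine ⟨ram_re σ R, fun c s hs => ?_⟩
      rw [ram_ext_re]
      exact hR c s hs
    · right
      refine ⟨c, ram_re σ W, fun s hs => ?_⟩
      rw [ram_ext_re]
      exact hW s hs

end Pool.Agent.Helper52.SZ
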